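import Pool.Agent.W644.CY.Base

/-!
# Chern characters `K_m(ℤ[G]) → HC_{m+2j}(ℤ[G])` of integral group rings

Let `G` be a group. The Chern character sends `K_m(ℤ[G])` to `HC_{m+2j}(ℤ[G])`, `j ≥ 0`, and the
latter maps, for every `P ∈ G`, to the homology group `H_{m+2j}(C(P)/⟨P⟩; ℤ)`. If the K-theoretic
Farrell-Jones conjecture holds for `ℤ[G]`, then (modulo torsion) the resulting homomorphism
`K_m(ℤ[G]) → H_{m+2j}(C(P)/⟨P⟩; ℤ)` is zero, unless `j = 0` and `P = 1`. We prove this, up to
classes which are invisible to cocycles with values in `ℤ`, for all `m + 2 j ≥ 1` and for all groups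
whose finitely generated subgroups are residually finite, for example all groups which are linear
over a field. Instead of `ℤ` we allow an integral domain of characteristic zero in which no prime
number is invertible.
-/

set_option autoImplicit false

namespace Pool.Agent.Results.MP_9d1ffa_al.IntegralChernCharacters

open Pool.Agent.W644.CY

universe u v w x y

/-- Let `A` be an integral domain of characteristic zero (for example `ℤ`), `G` a group, and `c` a
class cocycle of degree `n + 1 ≥ 1` on `G` (a family of alternating homogeneous cocycles `c P` of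
degree `n + 1` on `G`, `P ∈ G`, invariant under multiplication of each variable by `P`, and
equivariant under conjugation) with values in a finitely generated subring of `A`. Suppose that
(a) for every finitely generated subgroup `H` of `G` and every `g ≠ 1` in `H` with `c g ≠ 0` there
is a prime number `p`, not invertible in `A`, such that for some `t` the element `g` has no
`p ^ t`-th root in `H`; or
(b) no prime number is invertible in `A`, and the finitely generated subgroups of `G` are residually
finite; or
(c) no prime number is invertible in `A`, and `G` is linear over some field (of any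
characteristic).

(1) Let `θ` be a homomorphism (which need not preserve `1`) from a group `𝒢` to the `r × r`
matrices over `A[G]`, for example the inclusion of the group of invertible matrices, and let `z` be
a cycle of degree `n + 1` of Connes' complex of `ℤ[𝒢]`, component of the conjugacy class of `1`.
Then the value of `c` on `θ z` is, up to the factor `(n + 2)!`, the value of the component `c 1` on
the alternation of `z`; in particular it depends only on the image of `z` in `H_{n+1}(𝒢; ℚ)`, and
is zero if this image is zero.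
(2) For every idempotent `r × r` matrix `e` over `A[G]` the value of `c` on `tr (e ⊗ ⋯ ⊗ e)`
(`n + 2` factors) is zero. -/
theorem result (A : Type u) [CommRing A] [IsDomain A] [CharZero A] (G : Type v) [Group G]
    (r : Type w) [Fintype r] [DecidableEq r] (n : ℕ) (c : G → (Fin (n + 2) → G) → A)
    (hc : IsClassCocycle c) (s : Finset A) (hs : ∀ P y, c P y ∈ Algebra.adjoin ℤ (s : Set A))
    (hG : (∀ H : Subgroup G, H.FG → ∀ g ∈ H, g ≠ 1 → (∃ y, c g y ≠ 0) →
        ∃ p : ℕ, p.Prime ∧ ¬ IsUnit (p : A) ∧ ∃ t : ℕ, ∀ x ∈ H, x ^ p ^ t ≠ g) ∨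
      ((∀ p : ℕ, p.Prime → ¬ IsUnit (p : A)) ∧
        ((∀ H : Subgroup G, H.FG → Group.ResiduallyFinite H) ∨
          (∃ (L : Type x) (_ : Field L) (N : ℕ) (φ : G →* GL (Fin N) L),
            Function.Injective φ)))) :
    (∀ (𝒢 : Type y) [Group 𝒢] (θ : 𝒢 →ₙ* Matrix r r (MonoidAlgebra A G))
        (z : (Fin (n + 2) → 𝒢) →₀ ℤ), IsCyclicCycle z →
      ((n + 2).factorial : A) * chern θ c z = chern θ (restrictTo {1} c) (alternation z) ∧
        (IsRationallyZero z → chern θ c z = 0)) ∧
      ∀ e : Matrix r r (MonoidAlgebra A G), e * e = e →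
        classPairing c (fun _ : Fin (n + 2) => e) = 0 := by
  have hG' : ∀ H : Subgroup G, H.FG → ∀ g ∈ H, g ≠ 1 → (∃ y, c g y ≠ 0) →
      ∃ p : ℕ, p.Prime ∧ ¬ IsUnit (p : A) ∧ ∃ t : ℕ, ∀ x ∈ H, x ^ p ^ t ≠ g := by
    intro H hH g hg hg1 hy
    have key : (∀ p : ℕ, p.Prime → ¬ IsUnit (p : A)) → Group.ResiduallyFinite H →
        ∃ p : ℕ, p.Prime ∧ ¬ IsUnit (p : A) ∧ ∃ t : ℕ, ∀ x ∈ H, x ^ p ^ t ≠ g := by
      intro hA _
      obtain ⟨p, hp, t, ht⟩ := exists_prime_pow (⟨g, hg⟩ : H)
        (fun h0 => hg1 (congrArg Subtype.val h0))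
      refine ⟨p, hp, hA p hp, t, fun x hx hxg => ht ⟨x, hx⟩ (Subtype.ext ?_)⟩
      simpa using hxg
    rcases hG with h | ⟨hA, h | ⟨L, iL, N, φ, hφ⟩⟩
    · exact h H hH g hg hg1 hy
    · exact key hA (h H hH)
    · have : Group.FG H := (Group.fg_iff_subgroup_fg H).2 hH
      exact key hA (Pool.Agent.H290R4.ChernZ.malcev (φ.comp H.subtype)
        (hφ.comp H.subtype_injective))
  refine ⟨fun 𝒢 _ θ z hz => ⟨r2_main θ c hc s hs hG' z hz, fun h0 =>
    r2_zero θ c hc s hs hG' z hz h0⟩, fun e he => r2_idem c hc s hs hG' e he⟩

end Pool.Agent.Results.MP_9d1ffa_al.IntegralChernCharacters
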